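import Pool.Agent.Helper51.PF.Goals

/-!
Project PF (MP_c27e85_nt), packet EXC: few exceptional primes.
-/

namespace Pool.Agent.Helper54.PF

open Finset Pool.Agent.Helper51.PF

/-- The exceptional primes. -/
def Ex (p : ℕ) : Prop := p.Prime ∧
  ∃ s : ℕ, (s : ℝ) * (Real.log p) ^ 2 ≤ Real.sqrt p ∧ ¬ EarlyFree p s

open Classical in
/-- The number of exceptional primes. -/
noncomputable def cntE (x : ℝ) : ℕ := ((Finset.range (⌊x⌋₊ + 1)).filter Ex).card

lemma log2_bounds : (0 : ℝ) < Real.log 2 ∧ Real.log 2 < 0.6931471808 :=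
  ⟨Real.log_pos (by norm_num), Real.log_two_lt_d9⟩

lemma log4096 : Real.log 4096 = 12 * Real.log 2 := by
  have h : (4096 : ℝ) = 2 ^ 12 := by norm_num
  rw [h, Real.log_pow]
  norm_num

lemma base (x : ℝ) (h2 : 2 ≤ x) (hx : x ≤ 4096) : (cntE x : ℝ) ≤ 10000 * x / (Real.log x) ^ 4 := by
  classical
  have hl0 : 0 < Real.log x := Real.log_pos (by linarith)
  have hl : Real.log x ≤ 9 := by
    have h1 : Real.log x ≤ Real.log 4096 := Real.log_le_log (by linarith) hx
    rw [log4096] at h1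
    have := log2_bounds.2
    linarith
  have h1 : (cntE x : ℝ) ≤ x + 1 := by
    have h3 : cntE x ≤ ⌊x⌋₊ + 1 := by
      unfold cntE
      refine le_trans (card_filter_le _ _) ?_
      simp
    have h4 : ((⌊x⌋₊ : ℕ) : ℝ) ≤ x := Nat.floor_le (by linarith)
    have h5 : (cntE x : ℝ) ≤ (⌊x⌋₊ : ℝ) + 1 := by exact_mod_cast h3
    linarith
  rw [le_div_iff₀ (by positivity)]
  have h6 : (Real.log x) ^ 4 ≤ 6561 := by
    calc (Real.log x) ^ 4 ≤ 9 ^ 4 := pow_le_pow_left₀ hl0.le hl 4
      _ = 6561 := by norm_num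
  have h7 : (0 : ℝ) ≤ cntE x := Nat.cast_nonneg _
  calc (cntE x : ℝ) * (Real.log x) ^ 4 ≤ (x + 1) * 6561 :=
        mul_le_mul h1 h6 (by positivity) (by linarith)
    _ ≤ 10000 * x := by linarith

lemma step (hEXD : G_EXD) (x : ℝ) (hx : 4096 ≤ x) :
    (cntE x : ℝ) ≤ cntE (x / 2) + 2 * x / (Real.log (x / 2)) ^ 4 := by
  classical
  set y : ℝ := x / 2 with hy
  have hxy : x = 2 * y := by rw [hy]; ring
  have hy0 : 2048 ≤ y := by rw [hy]; linarith
  have hly : 1 ≤ Real.log y := by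
    rw [Real.le_log_iff_exp_le (by linarith)]
    have := Real.exp_one_lt_d9
    linarith
  have hl2 : 1 ≤ (Real.log y) ^ 2 := by nlinarith
  set M : ℕ := ⌊Real.sqrt (2 * y) / (Real.log y) ^ 2⌋₊ with hM
  have hMr : (M : ℝ) ≤ Real.sqrt (2 * y) / (Real.log y) ^ 2 := Nat.floor_le (by positivity)
  have hM2 : (M : ℝ) ≤ Real.sqrt (2 * y) := by
    refine hMr.trans ?_
    rw [div_le_iff₀ (by linarith)]
    nlinarith [Real.sqrt_nonneg (2 * y)]
  have hE := hEXD y M (by linarith) hM2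
  set Q : Finset ℕ := (Finset.range (⌊2 * y⌋₊ + 1)).filter (fun p : ℕ => p.Prime ∧ y < p ∧
    ∃ m : ℕ, 1 ≤ m ∧ m ≤ M ∧ ((m.factorial : ZMod p) = -1 ∨
      (Even m ∧ (m.factorial : ZMod p) = 1))) with hQ
  have hsub : (Finset.range (⌊x⌋₊ + 1)).filter Ex ⊆
      (Finset.range (⌊y⌋₊ + 1)).filter Ex ∪ Q := by
    intro p hp
    rw [mem_filter, mem_range] at hp
    obtain ⟨hpx, hpp, s, hs, hns⟩ := hp
    rw [mem_union]
    by_cases hpy : (p : ℝ) ≤ y
    · left
      rw [mem_filter, mem_range]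
      exact ⟨Nat.lt_succ_of_le (Nat.le_floor hpy), hpp, s, hs, hns⟩
    · right
      push Not at hpy
      rw [hQ, mem_filter, mem_range]
      refine ⟨by rw [← hxy]; exact hpx, hpp, hpy, ?_⟩
      have hpx' : (p : ℝ) ≤ 2 * y := by
        rw [← hxy]
        exact (Nat.le_floor_iff (by linarith)).1 (Nat.le_of_lt_succ hpx)
      unfold EarlyFree at hns
      push Not at hns
      obtain ⟨m, hm1, hms, hm⟩ := hns
      refine ⟨m, hm1, ?_, ?_⟩
      · apply Nat.le_floor
        rw [le_div_iff₀ (by linarith)]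
        have h1 : (m : ℝ) ≤ s := by exact_mod_cast hms.le
        have h2 : Real.log y ≤ Real.log p := Real.log_le_log (by linarith) hpy.le
        have h3 : (Real.log y) ^ 2 ≤ (Real.log p) ^ 2 := pow_le_pow_left₀ (by linarith) h2 2
        calc (m : ℝ) * (Real.log y) ^ 2 ≤ (s : ℝ) * (Real.log p) ^ 2 :=
              mul_le_mul h1 h3 (by positivity) (by positivity)
          _ ≤ Real.sqrt p := hs
          _ ≤ Real.sqrt (2 * y) := Real.sqrt_le_sqrt hpx'
      · by_cases h : (m.factorial : ZMod p) = -1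
        · exact Or.inl h
        · exact Or.inr (hm h)
  have hcard : cntE x ≤ cntE y + Q.card := by
    unfold cntE
    exact (card_le_card hsub).trans (card_union_le _ _)
  have hcard' : (cntE x : ℝ) ≤ cntE y + Q.card := by exact_mod_cast hcard
  have hM3 : 2 * (M : ℝ) ^ 2 ≤ 2 * x / (Real.log y) ^ 4 := by
    have h1 : (M : ℝ) ^ 2 ≤ (Real.sqrt (2 * y) / (Real.log y) ^ 2) ^ 2 :=
      pow_le_pow_left₀ (by positivity) hMr 2
    have h2 : (Real.sqrt (2 * y) / (Real.log y) ^ 2) ^ 2 = x / (Real.log y) ^ 4 := by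
      rw [div_pow, Real.sq_sqrt (by linarith), ← pow_mul, ← hxy]
    rw [h2] at h1
    calc 2 * (M : ℝ) ^ 2 ≤ 2 * (x / (Real.log y) ^ 4) := by linarith
      _ = 2 * x / (Real.log y) ^ 4 := by ring
  linarith

lemma final (x c : ℝ) (hx : 4096 ≤ x)
    (hc : c ≤ 10000 * (x / 2) / (Real.log (x / 2)) ^ 4 + 2 * x / (Real.log (x / 2)) ^ 4) :
    c ≤ 10000 * x / (Real.log x) ^ 4 := by
  have hL : 12 * Real.log 2 ≤ Real.log x := by
    rw [← log4096]
    exact Real.log_le_log (by norm_num) hx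
  have h2 := log2_bounds
  have hx2 : Real.log (x / 2) = Real.log x - Real.log 2 :=
    Real.log_div (by linarith) (by norm_num)
  have hL0 : 0 < Real.log x := by linarith
  have hlow : 11 / 12 * Real.log x ≤ Real.log (x / 2) := by rw [hx2]; linarith
  have h4 : (11 / 12 * Real.log x) ^ 4 ≤ (Real.log (x / 2)) ^ 4 :=
    pow_le_pow_left₀ (by positivity) hlow 4
  have h5 : (11 / 12 * Real.log x) ^ 4 = (11 / 12) ^ 4 * (Real.log x) ^ 4 := mul_pow _ _ _
  refine hc.trans ?_
  have h6 : 10000 * (x / 2) / (Real.log (x / 2)) ^ 4 + 2 * x / (Real.log (x / 2)) ^ 4 =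
      5002 * x / (Real.log (x / 2)) ^ 4 := by ring
  rw [h6]
  calc 5002 * x / (Real.log (x / 2)) ^ 4 ≤ 5002 * x / ((11 / 12) ^ 4 * (Real.log x) ^ 4) := by
        rw [← h5]
        exact div_le_div_of_nonneg_left (by linarith) (by positivity) h4
    _ ≤ 10000 * x / (Real.log x) ^ 4 := by
        rw [div_le_div_iff₀ (by positivity) (by positivity)]
        have h7 : 0 < (Real.log x) ^ 4 := by positivity
        have h8 : 0 < x * (Real.log x) ^ 4 := by
          apply mul_pos (by linarith) h7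
        nlinarith

theorem g_exc (hEXD : G_EXD) : G_EXC := by
  have key : ∀ n : ℕ, ∀ x : ℝ, 2 ≤ x → x ≤ 2 ^ n * 4096 →
      (cntE x : ℝ) ≤ 10000 * x / (Real.log x) ^ 4 := by
    intro n
    induction n with
    | zero =>
      intro x h2 hx
      exact base x h2 (by simpa using hx)
    | succ n ih =>
      intro x h2 hx
      by_cases h : x ≤ 4096
      · exact base x h2 h
      · push Not at h
        have h1 := step hEXD x h.le
        have h3 := ih (x / 2) (by linarith) (by rw [pow_succ] at hx; linarith)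
        exact final x _ h.le (by linarith)
  refine ⟨10000, fun x hx => ?_⟩
  obtain ⟨n, hn⟩ := pow_unbounded_of_one_lt x (one_lt_two (α := ℝ))
  have h1 := key n x hx (by nlinarith [pow_pos (two_pos (α := ℝ)) n])
  refine le_trans (le_of_eq ?_) h1
  unfold cntE Ex
  norm_cast
  congr 1
  congr 1

end Pool.Agent.Helper54.PF
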